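import Pool.Agent.GSC.Liminf

/-!
The counting function `A` of the greedy Sidon sequence `1, 2, 4, 8, 13, 21, …` satisfies
`A(N)³ ≥ (6 + 1 / 100000) N` for all `N ≥ 10¹⁵`.
-/

set_option autoImplicit false

namespace Pool.Agent.Results.MP_a5d8d4_nt.LiminfConstant

open Pool.Agent.GSC

/-- `A(N)³ ≥ (6 + 1 / 100000) N` for every `N ≥ 10¹⁵`. -/
theorem result (N : ℕ) (hN : 10 ^ 15 ≤ N) : (6 + 1 / 100000 : ℝ) * N ≤ (A N : ℝ) ^ 3 :=
  liminf_bound hN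

end Pool.Agent.Results.MP_a5d8d4_nt.LiminfConstant
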