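import Pool.Agent.GSC.Window

/-!
The counting function `A` of the greedy Sidon sequence `1, 2, 4, 8, 13, 21, …` satisfies
`A(M) ≥ 1.94 M^(1/3)` for some `M` in every interval `[N / C, N]`.
-/

set_option autoImplicit false

namespace Pool.Agent.Results.MP_a5d8d4_nt.LimsupConstant

open Pool.Agent.GSC

/-- There is a number `C` such that for every `N ≥ C` there is an `M` with `N / C ≤ M ≤ N` and
`A(M) ≥ 1.94 M^(1/3)`. -/
theorem result : ∃ C : ℕ, ∀ N : ℕ, C ≤ N → ∃ M : ℕ, M ≤ N ∧ N ≤ C * M ∧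
    1.94 * (M : ℝ) ^ (1 / 3 : ℝ) ≤ (A M : ℝ) := by
  obtain ⟨C, hC⟩ := window
  refine ⟨C, fun N hN => ?_⟩
  obtain ⟨M, h1, h2, h3⟩ := hC N hN
  refine ⟨M, h1, h2, ?_⟩
  have h4 : ((M : ℝ) ^ (1 / 3 : ℝ)) ^ 3 = M := by
    rw [← Real.rpow_natCast, ← Real.rpow_mul (Nat.cast_nonneg M)]
    norm_num
  have h5 : (1.94 * (M : ℝ) ^ (1 / 3 : ℝ)) ^ 3 ≤ (A M : ℝ) ^ 3 := by
    rw [mul_pow, h4]
    exact h3
  exact le_of_pow_le_pow_left₀ (by norm_num) (Nat.cast_nonneg _) h5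

end Pool.Agent.Results.MP_a5d8d4_nt.LimsupConstant
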