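import Pool.Agent.GSC.Upper

/-!
The counting function `A` of the greedy Sidon sequence `1, 2, 4, 8, 13, 21, …` satisfies
`A(N) ≤ √N + 0.809 N^(1/4)` for all `N ≥ 10²²`.
-/

set_option autoImplicit false

namespace Pool.Agent.Results.MP_a5d8d4_nt.UpperConstant

open Pool.Agent.GSC

/-- `A(N) ≤ √N + 0.809 N^(1/4)` for every `N ≥ 10²²`. -/
theorem result (N : ℕ) (hN : 10 ^ 22 ≤ N) :
    (A N : ℝ) ≤ Real.sqrt N + 809 / 1000 * (N : ℝ) ^ (1 / 4 : ℝ) := by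
  have h0 : (0 : ℝ) ≤ (N : ℝ) := Nat.cast_nonneg _
  have h1 : ((N : ℝ) ^ (1 / 4 : ℝ)) ^ 4 = N := by
    rw [← Real.rpow_natCast, ← Real.rpow_mul h0]
    norm_num
  have h2 : ((N : ℝ) ^ (1 / 4 : ℝ)) ^ 2 = Real.sqrt N := by
    rw [← Real.rpow_natCast, ← Real.rpow_mul h0, Real.sqrt_eq_rpow]
    norm_num
  have h3 := upper_bound hN (Real.rpow_nonneg h0 _) h1
  rw [h2] at h3
  exact h3

end Pool.Agent.Results.MP_a5d8d4_nt.UpperConstant
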